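import Pool.Agent.helper64.D2.SpecC

/-!
# Project dc: small perturbations of the identity are diffeomorphisms (DIF)
-/

set_option autoImplicit false

open Filter Topology
open scoped commutatorElement

namespace Pool.Agent.helper64.D2

/-- small `C^2` perturbations of the identity are `C^2` diffeomorphisms -/
theorem DIF : DIF_stmt := by
  intro X hX h0 hd
  obtain ⟨f, hf⟩ : ∃ f : ℝ → ℝ, f = fun x => x + X x := ⟨_, rfl⟩
  have hfx : ∀ x, f x = x + X x := fun x => by rw [hf]
  have hdX : Differentiable ℝ X := hX.differentiable (by norm_num)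
  have hfc : ContDiff ℝ 2 f := by
    rw [hf]
    exact contDiff_id.add hX
  have hder : ∀ x, HasDerivAt f (1 + deriv X x) x := by
    intro x
    rw [hf]
    exact (hasDerivAt_id x).add (hdX x).hasDerivAt
  have hpos : ∀ x, 0 < 1 + deriv X x := by
    intro x
    have := (abs_le.1 (hd x)).1
    linarith
  have hmono : StrictMono f := by
    apply strictMono_of_deriv_pos
    intro x
    rw [(hder x).deriv]
    exact hpos x
  have hout : ∀ x, x ∉ Set.Ioo (0 : ℝ) 1 → f x = x := by
    intro x hx
    rw [hfx, h0 x hx, add_zero]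
  have hcont : Continuous f := hfc.continuous
  have hsurj : Function.Surjective f := by
    apply hcont.surjective
    · apply tendsto_id.congr'
      filter_upwards [eventually_ge_atTop (1 : ℝ)] with x hx
      exact (hout x (fun h => by linarith [h.2])).symm
    · apply tendsto_id.congr'
      filter_upwards [eventually_le_atBot (0 : ℝ)] with x hx
      exact (hout x (fun h => by linarith [h.1])).symm
  obtain ⟨o, ho⟩ : ∃ o : ℝ ≃o ℝ, ∀ x, o x = f x :=
    ⟨StrictMono.orderIsoOfSurjective f hmono hsurj, fun x => rfl⟩
  have hinv : ContDiff ℝ 2 (o.toEquiv.symm : ℝ → ℝ) := by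
    rw [contDiff_iff_contDiffAt]
    intro a
    have hfun : ((o.toHomeomorph.toOpenPartialHomeomorph : OpenPartialHomeomorph ℝ ℝ) : ℝ → ℝ) = f := by
      funext x
      exact ho x
    have key := (o.toHomeomorph.toOpenPartialHomeomorph).contDiffAt_symm_deriv (𝕜 := ℝ) (n := 2)
      (f₀' := 1 + deriv X (o.symm a)) (a := a) (hpos _).ne' (Set.mem_univ _)
      (by rw [hfun]; exact hder _) (by rw [hfun]; exact hfc.contDiffAt)
    exact key
  refine ⟨⟨o.toEquiv, ?_, hinv, ?_, ?_⟩, ?_⟩
  · have : (o.toEquiv : ℝ → ℝ) = f := funext ho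
    rw [this]
    exact hfc
  · exact o.monotone
  · intro x hx
    exact (ho x).trans (hout x hx)
  · intro x
    exact (ho x).trans (hfx x)

end Pool.Agent.helper64.D2
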