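import Pool.Agent.helper64.D2.SpecF

/-!
# Project dc: bounds of the derivatives of a lift (GDB)
-/

set_option autoImplicit false

open Filter Topology
open scoped commutatorElement

namespace Pool.Agent.helper64.D2

/-- continuous functions of period one are bounded -/
theorem GDB_bdd (h : ℝ → ℝ) (hc : Continuous h) (hp : ∀ x, h (x + 1) = h x) : ∃ C : ℝ, 0 ≤ C ∧ ∀ x, |h x| ≤ C := by
  obtain ⟨C, hC⟩ := isCompact_Icc.exists_bound_of_continuousOn (s := Set.Icc (0 : ℝ) 1) hc.continuousOn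
  have hper : Function.Periodic h 1 := hp
  refine ⟨C, ?_, ?_⟩
  · exact le_trans (norm_nonneg _) (hC 0 ⟨le_refl _, zero_le_one⟩)
  · intro x
    obtain ⟨y, hy, hxy⟩ := hper.exists_mem_Ico₀ one_pos x
    rw [hxy]
    exact hC y ⟨hy.1, hy.2.le⟩

/-- bounds of the derivatives -/
theorem GDB (hGGB : GGB_stmt) : GDB_stmt := by
  obtain ⟨-, -, -, hinv, hadd, hmono, -, -⟩ := hGGB
  intro g hg
  have hg1 : ContDiff ℝ 2 (gg g) := hg.1
  have hg2 : ContDiff ℝ 2 (gg g⁻¹) := hg.2
  have hd1 : Differentiable ℝ (gg g) := hg1.differentiable (by norm_num)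
  have hd2 : Differentiable ℝ (gg g⁻¹) := hg2.differentiable (by norm_num)
  have hg1' : ContDiff ℝ 1 (deriv (gg g)) := by
    have : ContDiff ℝ (1 + 1) (gg g) := by
      rw [one_add_one_eq_two]; exact hg1
    exact (contDiff_succ_iff_deriv.1 this).2.2
  have hdd : Differentiable ℝ (deriv (gg g)) := hg1'.differentiable (by norm_num)
  have hcd : Continuous (deriv (gg g)) := hg1'.continuous
  have hcdd : Continuous (d2 (gg g)) := hg1'.continuous_deriv (le_refl _)
  have hone : ∀ x, gg g (x + 1) = gg g x + 1 := by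
    intro x
    have := hadd g x 1
    simpa using this
  have hper1 : ∀ x, deriv (gg g) (x + 1) = deriv (gg g) x := by
    intro x
    have h1 : deriv (fun y => gg g (y + 1)) x = deriv (gg g) (x + 1) := deriv_comp_add_const (gg g) 1 x
    rw [← h1]
    have h2 : (fun y => gg g (y + 1)) = fun y => gg g y + 1 := funext hone
    rw [h2, deriv_add_const]
  have hper2 : ∀ x, d2 (gg g) (x + 1) = d2 (gg g) x := by
    intro x
    have h1 : deriv (fun y => deriv (gg g) (y + 1)) x = deriv (deriv (gg g)) (x + 1) :=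
      deriv_comp_add_const (deriv (gg g)) 1 x
    change deriv (deriv (gg g)) (x + 1) = deriv (deriv (gg g)) x
    rw [← h1]
    have h2 : (fun y => deriv (gg g) (y + 1)) = deriv (gg g) := funext hper1
    rw [h2]
  have hchain : ∀ x, deriv (gg g⁻¹) (gg g x) * deriv (gg g) x = 1 := by
    intro x
    have h1 : HasDerivAt (fun y => gg g⁻¹ (gg g y)) (deriv (gg g⁻¹) (gg g x) * deriv (gg g) x) x :=
      HasDerivAt.comp x (hd2 (gg g x)).hasDerivAt (hd1 x).hasDerivAt
    have h2 : (fun y => gg g⁻¹ (gg g y)) = fun y => y := funext (fun y => (hinv g y).1)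
    rw [h2] at h1
    exact h1.unique (hasDerivAt_id x)
  have hpos : ∀ x, 0 < deriv (gg g) x := by
    intro x
    have h0 : 0 ≤ deriv (gg g) x := (hmono g).monotone.deriv_nonneg
    rcases h0.lt_or_eq with h | h
    · exact h
    · exfalso
      have := hchain x
      rw [← h, mul_zero] at this
      exact zero_ne_one this
  obtain ⟨B0, hB0, hB0'⟩ := GDB_bdd (fun x => (deriv (gg g) x)⁻¹) (hcd.inv₀ (fun x => (hpos x).ne'))
    (fun x => by rw [hper1])
  obtain ⟨B1, hB1, hB1'⟩ := GDB_bdd (deriv (gg g)) hcd hper1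
  obtain ⟨B2, hB2, hB2'⟩ := GDB_bdd (d2 (gg g)) hcdd hper2
  obtain ⟨B3, hB3, hB3'⟩ := GDB_bdd (fun x => gg g x - x) (hg1.continuous.sub continuous_id)
    (fun x => by rw [hone]; ring)
  have hchain' : ∀ x, deriv (gg g) (gg g⁻¹ x) * deriv (gg g⁻¹) x = 1 := by
    intro x
    have := hchain (gg g⁻¹ x)
    rw [(hinv g x).2] at this
    rw [mul_comm]
    exact this
  have hdi : ∀ x, deriv (gg g⁻¹) x = 1 / deriv (gg g) (gg g⁻¹ x) := by
    intro x
    rw [eq_div_iff (hpos _).ne', mul_comm]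
    exact hchain' x
  refine ⟨hg1, fun x => ⟨hper1 x, hper2 x⟩, ⟨1 / (B0 + 1), B1 + B2 + B3 + 1, by positivity, ?_, by linarith, ?_⟩, ?_⟩
  · rw [div_le_one (by positivity)]
    linarith
  · intro x
    refine ⟨?_, ?_, ?_, ?_⟩
    · have h1 := hB0' x
      rw [abs_of_pos (inv_pos.2 (hpos x))] at h1
      rw [one_div]
      have h2 : (deriv (gg g) x)⁻¹ ≤ B0 + 1 := by linarith
      exact inv_le_of_inv_le₀ (hpos x) h2
    · have h1 := hB1' x
      have h2 := le_abs_self (deriv (gg g) x)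
      linarith
    · have h1 := hB2' x
      linarith
    · have h1 := hB3' x
      linarith
  · intro x
    refine ⟨hdi x, ?_⟩
    change deriv (deriv (gg g⁻¹)) x = _
    have h1 : deriv (gg g⁻¹) = fun y => (deriv (gg g) (gg g⁻¹ y))⁻¹ := by
      funext y
      rw [hdi y, one_div]
    have h2 : HasDerivAt (fun y => deriv (gg g) (gg g⁻¹ y)) (d2 (gg g) (gg g⁻¹ x) * deriv (gg g⁻¹) x) x :=
      HasDerivAt.comp x (hdd (gg g⁻¹ x)).hasDerivAt (hd2 x).hasDerivAt
    have h3 : HasDerivAt (fun y => (deriv (gg g) (gg g⁻¹ y))⁻¹)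
        (-(d2 (gg g) (gg g⁻¹ x) * deriv (gg g⁻¹) x) / deriv (gg g) (gg g⁻¹ x) ^ 2) x :=
      h2.fun_inv (hpos _).ne'
    rw [h1, h3.deriv, hdi x]
    have h4 := (hpos (gg g⁻¹ x)).ne'
    field_simp

end Pool.Agent.helper64.D2
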